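import Mathlib

/-!
A productively weakly Lindelof space that is not weakly Alster.

The example is the Pixley-Roy hyperspace of the real line: the finite subsets of the line, with
basic open sets `[F, U] = {G | F ⊆ G ⊆ U}` for `F` finite and `U` open in the line.
-/

set_option autoImplicit false

open Set Filter Topology

universe u v

namespace Pool.Agent.Results.MP_b47357_gt.Counterexample

/-- `X` is weakly Lindelof: every open cover has a countable subfamily with dense union. -/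
def WeaklyLindelof (X : Type u) [TopologicalSpace X] : Prop :=
  ∀ 𝒰 : Set (Set X), (∀ U ∈ 𝒰, IsOpen U) → ⋃₀ 𝒰 = univ →
    ∃ 𝒱 : Set (Set X), 𝒱 ⊆ 𝒰 ∧ 𝒱.Countable ∧ Dense (⋃₀ 𝒱)

/-- `X` is productively weakly Lindelof: `X × Y` is weakly Lindelof for every weakly Lindelof
space `Y` (of the universe `v`). -/
def ProductivelyWeaklyLindelof (X : Type u) [TopologicalSpace X] : Prop :=
  ∀ (Y : Type v) [TopologicalSpace Y], WeaklyLindelof Y → WeaklyLindelof (X × Y)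

/-- `X` is weakly Alster: every family of G-delta sets which does not contain `X` and such that
every compact set lies inside one of its members has a countable subfamily with dense union. -/
def WeaklyAlster (X : Type u) [TopologicalSpace X] : Prop :=
  ∀ 𝒰 : Set (Set X), (∀ U ∈ 𝒰, IsGδ U) → univ ∉ 𝒰 →
    (∀ C : Set X, IsCompact C → ∃ U ∈ 𝒰, C ⊆ U) →
    ∃ 𝒱 : Set (Set X), 𝒱 ⊆ 𝒰 ∧ 𝒱.Countable ∧ Dense (⋃₀ 𝒱)

/-- The underlying set of the Pixley-Roy hyperspace of the line. -/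
structure PR where
  /-- the finite set of reals -/
  val : Finset ℝ

theorem PR.ext' {a b : PR} (h : a.val = b.val) : a = b := by
  cases a; cases b; simp_all

/-- The basic set `[F, U]`. -/
def box (F : Finset ℝ) (U : Set ℝ) : Set PR := {G | F ⊆ G.val ∧ (G.val : Set ℝ) ⊆ U}

instance prTop : TopologicalSpace PR where
  IsOpen O := ∀ G ∈ O, ∃ U : Set ℝ, IsOpen U ∧ (G.val : Set ℝ) ⊆ U ∧ box G.val U ⊆ O
  isOpen_univ := fun G _ => ⟨univ, isOpen_univ, subset_univ _, subset_univ _⟩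
  isOpen_inter := by
    intro s t hs ht G hG
    obtain ⟨U, hU, hGU, h1⟩ := hs G hG.1
    obtain ⟨V, hV, hGV, h2⟩ := ht G hG.2
    exact ⟨U ∩ V, hU.inter hV, subset_inter hGU hGV, fun H hH =>
      ⟨h1 ⟨hH.1, hH.2.trans inter_subset_left⟩, h2 ⟨hH.1, hH.2.trans inter_subset_right⟩⟩⟩
  isOpen_sUnion := by
    intro s hs G hG
    obtain ⟨t, ht, hGt⟩ := hG
    obtain ⟨U, hU, hGU, h1⟩ := hs t ht G hGt
    exact ⟨U, hU, hGU, h1.trans (subset_sUnion_of_mem ht)⟩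

theorem isOpen_iff' {O : Set PR} :
    IsOpen O ↔ ∀ G ∈ O, ∃ U : Set ℝ, IsOpen U ∧ (G.val : Set ℝ) ⊆ U ∧ box G.val U ⊆ O := Iff.rfl

theorem isOpen_box (F : Finset ℝ) {U : Set ℝ} (hU : IsOpen U) : IsOpen (box F U) := by
  rw [isOpen_iff']
  intro G hG
  exact ⟨U, hU, hG.2, fun H hH => ⟨hG.1.trans hH.1, hH.2⟩⟩

theorem isClosed_box (F : Finset ℝ) (U : Set ℝ) : IsClosed (box F U) := by
  rw [← isOpen_compl_iff, isOpen_iff']
  intro G hG
  by_cases h : F ⊆ G.val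
  · refine ⟨univ, isOpen_univ, subset_univ _, fun H hH hH' => hG ⟨h, ?_⟩⟩
    exact (Finset.coe_subset.2 hH.1).trans hH'.2
  · obtain ⟨x, hxF, hxG⟩ := Finset.not_subset.1 h
    refine ⟨{x}ᶜ, isOpen_compl_singleton, ?_, fun H hH hH' => ?_⟩
    · intro z hz hzx
      rw [mem_singleton_iff] at hzx
      exact hxG (hzx ▸ hz)
    · exact hH.2 (hH'.1 hxF) rfl

theorem mem_box_self (G : PR) {U : Set ℝ} (h : (G.val : Set ℝ) ⊆ U) : G ∈ box G.val U :=
  ⟨subset_rfl, h⟩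

theorem mem_nhds_iff' {G : PR} {O : Set PR} :
    O ∈ 𝓝 G ↔ ∃ U : Set ℝ, IsOpen U ∧ (G.val : Set ℝ) ⊆ U ∧ box G.val U ⊆ O := by
  constructor
  · intro h
    obtain ⟨t, hts, ht, hG⟩ := mem_nhds_iff.1 h
    obtain ⟨U, hU, hGU, h1⟩ := isOpen_iff'.1 ht G hG
    exact ⟨U, hU, hGU, h1.trans hts⟩
  · rintro ⟨U, hU, hGU, h1⟩
    exact mem_of_superset ((isOpen_box _ hU).mem_nhds (mem_box_self G hGU)) h1

theorem basis_clopens : TopologicalSpace.IsTopologicalBasis {s : Set PR | IsClopen s} := by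
  refine TopologicalSpace.isTopologicalBasis_of_isOpen_of_nhds (fun s hs => hs.isOpen) ?_
  intro G O hG hO
  obtain ⟨U, hU, hGU, h1⟩ := isOpen_iff'.1 hO G hG
  exact ⟨box G.val U, ⟨isClosed_box _ _, isOpen_box _ hU⟩, mem_box_self G hGU, h1⟩

theorem pr_t0 : T0Space PR := by
  refine ⟨fun G H h => ?_⟩
  rw [inseparable_iff_forall_isOpen] at h
  have h1 := (h _ (isOpen_box G.val isOpen_univ)).1 (mem_box_self G (subset_univ _))
  have h2 := (h _ (isOpen_box H.val isOpen_univ)).2 (mem_box_self H (subset_univ _))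
  exact PR.ext' (Finset.Subset.antisymm h1.1 h2.1)

theorem pr_t35 : T35Space PR :=
  { toT0Space := pr_t0
    toCompletelyRegularSpace := CompletelyRegularSpace.of_isTopologicalBasis_clopens basis_clopens }

theorem pr_firstCountable : FirstCountableTopology PR := by
  refine ⟨fun G => ?_⟩
  have hb : (𝓝 G).HasBasis (fun _ : ℕ => True)
      (fun n => box G.val (Metric.thickening (1 / ((n : ℝ) + 1)) (G.val : Set ℝ))) := by
    refine ⟨fun O => ?_⟩
    rw [mem_nhds_iff']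
    constructor
    · rintro ⟨U, hU, hGU, h1⟩
      obtain ⟨δ, hδ, h2⟩ := G.val.finite_toSet.isCompact.exists_thickening_subset_open hU hGU
      obtain ⟨n, hn⟩ := exists_nat_one_div_lt hδ
      exact ⟨n, trivial, fun H hH =>
        h1 ⟨hH.1, hH.2.trans ((Metric.thickening_mono hn.le _).trans h2)⟩⟩
    · rintro ⟨n, -, h⟩
      exact ⟨_, Metric.isOpen_thickening,
        Metric.self_subset_thickening Nat.one_div_pos_of_nat _, h⟩
  exact hb.isCountablyGenerated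

/-- The compact set coded by a finite set of pairs of rationals. -/
def cpt (s : Finset (ℚ × ℚ)) : Set ℝ := ⋃ p ∈ s, Icc (p.1 : ℝ) (p.2 : ℝ)

theorem isCompact_cpt (s : Finset (ℚ × ℚ)) : IsCompact (cpt s) :=
  s.isCompact_biUnion fun _ _ => isCompact_Icc

theorem exists_cpt (F : Finset ℝ) {U : Set ℝ} (hU : IsOpen U) (h : (F : Set ℝ) ⊆ U) :
    ∃ s, (F : Set ℝ) ⊆ cpt s ∧ cpt s ⊆ U := by
  classical
  have key : ∀ x ∈ U, ∃ p : ℚ × ℚ, x ∈ Icc (p.1 : ℝ) (p.2 : ℝ) ∧ Icc (p.1 : ℝ) (p.2 : ℝ) ⊆ U := by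
    intro x hx
    obtain ⟨a, b, hab, hsub⟩ := mem_nhds_iff_exists_Ioo_subset.1 (hU.mem_nhds hx)
    obtain ⟨p, hp1, hp2⟩ := exists_rat_btwn hab.1
    obtain ⟨q, hq1, hq2⟩ := exists_rat_btwn hab.2
    exact ⟨(p, q), ⟨hp2.le, hq1.le⟩, fun z hz => hsub ⟨hp1.trans_le hz.1, hz.2.trans_lt hq2⟩⟩
  choose! f hf using key
  refine ⟨F.image f, fun x hx => ?_, ?_⟩
  · exact mem_biUnion (Finset.mem_coe.2 (Finset.mem_image_of_mem f hx)) (hf x (h hx)).1
  · intro z hz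
    obtain ⟨p, hp, hz⟩ := mem_iUnion₂.1 hz
    obtain ⟨x, hx, rfl⟩ := Finset.mem_image.1 hp
    exact (hf x (h hx)).2 hz

open Classical in
/-- The tube lemma for the finite powers of a compact set of reals. -/
theorem tube {Y : Type v} [TopologicalSpace Y] (𝒲 : Set (Set (PR × Y)))
    (hopen : ∀ W ∈ 𝒲, IsOpen W) (hcov : ⋃₀ 𝒲 = univ) {K : Set ℝ} (hK : IsCompact K) (k : ℕ)
    (y : Y) :
    ∃ 𝒯 : Set (Set (PR × Y)), 𝒯 ⊆ 𝒲 ∧ 𝒯.Finite ∧ ∃ V ∈ 𝓝 y,
      ∀ t ∈ Set.pi univ (fun _ : Fin k => K), ∃ W ∈ 𝒯, ∃ H : Finset ℝ, (H : Set ℝ) ⊆ K ∧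
        ∀ y' ∈ V, ((⟨Finset.univ.image t ∪ H⟩ : PR), y') ∈ W := by
  refine (isCompact_univ_pi (fun _ : Fin k => hK)).induction_on
    (p := fun S => ∃ 𝒯 : Set (Set (PR × Y)), 𝒯 ⊆ 𝒲 ∧ 𝒯.Finite ∧ ∃ V ∈ 𝓝 y,
      ∀ t ∈ S, ∃ W ∈ 𝒯, ∃ H : Finset ℝ, (H : Set ℝ) ⊆ K ∧
        ∀ y' ∈ V, ((⟨Finset.univ.image t ∪ H⟩ : PR), y') ∈ W) ?_ ?_ ?_ ?_
  · exact ⟨∅, empty_subset _, finite_empty, univ, univ_mem, fun t ht => ht.elim⟩
  · rintro S T hST ⟨𝒯, h1, h2, V, hV, h3⟩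
    exact ⟨𝒯, h1, h2, V, hV, fun t ht => h3 t (hST ht)⟩
  · rintro S T ⟨𝒯, h1, h2, V, hV, h3⟩ ⟨𝒯', h1', h2', V', hV', h3'⟩
    refine ⟨𝒯 ∪ 𝒯', union_subset h1 h1', h2.union h2', V ∩ V', inter_mem hV hV', ?_⟩
    rintro t (ht | ht)
    · obtain ⟨W, hW, H, hH, h4⟩ := h3 t ht
      exact ⟨W, Or.inl hW, H, hH, fun y' hy' => h4 y' hy'.1⟩
    · obtain ⟨W, hW, H, hH, h4⟩ := h3' t ht
      exact ⟨W, Or.inr hW, H, hH, fun y' hy' => h4 y' hy'.2⟩
  · intro t ht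
    have hmem : ((⟨Finset.univ.image t⟩ : PR), y) ∈ ⋃₀ 𝒲 := hcov ▸ mem_univ _
    obtain ⟨W, hW, hin⟩ := hmem
    have hn := (hopen W hW).mem_nhds hin
    rw [nhds_prod_eq, mem_prod_iff] at hn
    obtain ⟨A, hA, V, hV, hAV⟩ := hn
    obtain ⟨U, hU, hGU, hbox⟩ := mem_nhds_iff'.1 hA
    refine ⟨Set.pi univ (fun _ : Fin k => U), mem_nhdsWithin_of_mem_nhds ?_, {W},
      singleton_subset_iff.2 hW, finite_singleton _, V, hV, ?_⟩
    · refine (isOpen_set_pi finite_univ (fun _ _ => hU)).mem_nhds ?_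
      intro i _
      exact hGU (Finset.mem_coe.2 (Finset.mem_image_of_mem t (Finset.mem_univ i)))
    · intro t' ht'
      refine ⟨W, rfl, Finset.univ.image t, ?_, fun y' hy' => hAV ⟨hbox ⟨?_, ?_⟩, hy'⟩⟩
      · intro z hz
        obtain ⟨i, -, rfl⟩ := Finset.mem_image.1 (Finset.mem_coe.1 hz)
        exact ht i (mem_univ i)
      · exact Finset.subset_union_right
      · intro z hz
        rcases Finset.mem_union.1 (Finset.mem_coe.1 hz) with hz | hz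
        · obtain ⟨i, -, rfl⟩ := Finset.mem_image.1 hz
          exact ht' i (mem_univ i)
        · exact hGU hz

theorem pr_productive : ProductivelyWeaklyLindelof.{0, v} PR := by
  classical
  intro Y _ hY 𝒲 hopen hcov
  have step : ∀ j : Finset (ℚ × ℚ) × ℕ, ∃ 𝒮 : Set (Set (PR × Y)), 𝒮 ⊆ 𝒲 ∧ 𝒮.Countable ∧
      ∀ B : Set Y, IsOpen B → B.Nonempty → ∀ t ∈ Set.pi univ (fun _ : Fin j.2 => cpt j.1),
        ∃ W ∈ 𝒮, ∃ H : Finset ℝ, (H : Set ℝ) ⊆ cpt j.1 ∧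
          ∃ y' ∈ B, ((⟨Finset.univ.image t ∪ H⟩ : PR), y') ∈ W := by
    rintro ⟨s, k⟩
    let P : Set Y → Set (Set (PR × Y)) → Prop := fun V 𝒯 => 𝒯 ⊆ 𝒲 ∧ 𝒯.Finite ∧
      ∀ t ∈ Set.pi univ (fun _ : Fin k => cpt s), ∃ W ∈ 𝒯, ∃ H : Finset ℝ,
        (H : Set ℝ) ⊆ cpt s ∧ ∀ y' ∈ V, ((⟨Finset.univ.image t ∪ H⟩ : PR), y') ∈ W
    obtain ⟨𝒱, h𝒱, hc, hd⟩ := hY {V | IsOpen V ∧ ∃ 𝒯, P V 𝒯} (fun V hV => hV.1) (by
      refine eq_univ_of_forall fun y => ?_
      obtain ⟨𝒯, h1, h2, V, hV, h3⟩ := tube 𝒲 hopen hcov (isCompact_cpt s) k y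
      refine ⟨interior V, ⟨isOpen_interior, 𝒯, h1, h2, fun t ht => ?_⟩,
        mem_interior_iff_mem_nhds.2 hV⟩
      obtain ⟨W, hW, H, hH, h4⟩ := h3 t ht
      exact ⟨W, hW, H, hH, fun y' hy' => h4 y' (interior_subset hy')⟩)
    have hex : ∀ V ∈ 𝒱, ∃ 𝒯, P V 𝒯 := fun V hV => (h𝒱 hV).2
    choose! T hT using hex
    refine ⟨⋃ V ∈ 𝒱, T V, iUnion₂_subset fun V hV => (hT V hV).1,
      hc.biUnion fun V hV => (hT V hV).2.1.countable, ?_⟩
    intro B hB hne t ht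
    obtain ⟨y', hyB, V, hV, hyV⟩ := hd.inter_open_nonempty B hB hne
    obtain ⟨W, hW, H, hH, h4⟩ := (hT V hV).2.2 t ht
    exact ⟨W, mem_biUnion hV hW, H, hH, y', hyB, h4 y' hyV⟩
  choose S hS1 hS2 hS3 using step
  refine ⟨⋃ j, S j, iUnion_subset hS1, countable_iUnion hS2, ?_⟩
  rw [dense_iff_inter_open]
  rintro O hO ⟨⟨F, y⟩, hFy⟩
  obtain ⟨A, B, hA, hB, hFA, hyB, hAB⟩ := isOpen_prod_iff.1 hO F y hFy
  obtain ⟨U, hU, hFU, hbox⟩ := isOpen_iff'.1 hA F hFA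
  obtain ⟨s, hs1, hs2⟩ := exists_cpt F.val hU hFU
  let t : Fin F.val.card → ℝ := fun i => (F.val.equivFin.symm i : ℝ)
  have himg : Finset.univ.image t = F.val := by
    ext z
    simp only [Finset.mem_image, Finset.mem_univ, true_and]
    constructor
    · rintro ⟨i, rfl⟩
      exact (F.val.equivFin.symm i).2
    · intro hz
      exact ⟨F.val.equivFin ⟨z, hz⟩, by simp [t]⟩
  obtain ⟨W, hW, H, hH, y', hy', hmem⟩ := hS3 (s, F.val.card) B hB ⟨y, hyB⟩ t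
    (fun i _ => hs1 (F.val.equivFin.symm i).2)
  refine ⟨(⟨Finset.univ.image t ∪ H⟩, y'), hAB ⟨hbox ⟨?_, ?_⟩, hy'⟩, W, mem_iUnion.2 ⟨_, hW⟩, hmem⟩
  · rw [himg]
    exact Finset.subset_union_left
  · rw [himg]
    intro z hz
    rcases Finset.mem_union.1 (Finset.mem_coe.1 hz) with hz | hz
    · exact hFU hz
    · exact hs2 (hH hz)

theorem exists_not_mem {D : Set PR} (hD : D.Countable) : ∃ x : ℝ, ∀ G ∈ D, x ∉ G.val := by
  by_contra hcon
  push Not at hcon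
  have h1 : (⋃ G ∈ D, (G.val : Set ℝ)).Countable :=
    hD.biUnion fun G _ => G.val.finite_toSet.countable
  have h2 : (⋃ G ∈ D, (G.val : Set ℝ)) = univ := by
    refine eq_univ_of_forall fun x => ?_
    obtain ⟨G, hG, hx⟩ := hcon x
    exact mem_biUnion hG hx
  rw [h2] at h1
  exact Cardinal.not_countable_real h1

theorem not_dense_of_countable {D : Set PR} (hD : D.Countable) : ¬ Dense D := by
  intro hd
  obtain ⟨x, hx⟩ := exists_not_mem hD
  obtain ⟨G, hG1, hG2⟩ := hd.inter_open_nonempty (box {x} univ) (isOpen_box _ isOpen_univ)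
    ⟨⟨{x}⟩, subset_rfl, subset_univ _⟩
  exact hx G hG2 (hG1.1 (Finset.mem_singleton_self x))

theorem compact_subset_countable_Gdelta {C : Set PR} (hC : IsCompact C) :
    ∃ A : Set PR, IsGδ A ∧ A.Countable ∧ C ⊆ A := by
  have h : ∀ n : ℕ, ∃ t : Finset PR, C ⊆ ⋃ G ∈ t,
      box G.val (Metric.thickening (1 / ((n : ℝ) + 1)) (G.val : Set ℝ)) := by
    intro n
    refine hC.elim_finite_subcover
      (fun G : PR => box G.val (Metric.thickening (1 / ((n : ℝ) + 1)) (G.val : Set ℝ)))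
      (fun G => isOpen_box _ Metric.isOpen_thickening) ?_
    intro G _
    exact mem_iUnion.2 ⟨G, mem_box_self G (Metric.self_subset_thickening Nat.one_div_pos_of_nat _)⟩
  choose t ht using h
  refine ⟨⋂ n : ℕ, ⋃ G ∈ t n, box G.val (Metric.thickening (1 / ((n : ℝ) + 1)) (G.val : Set ℝ)),
    IsGδ.iInter_of_isOpen fun n => isOpen_biUnion fun G _ => isOpen_box _ Metric.isOpen_thickening,
    ?_, subset_iInter ht⟩
  refine (countable_iUnion fun n => (t n).finite_toSet.countable).mono ?_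
  intro H hH
  have hsep : ∃ δ : ℝ, 0 < δ ∧ ∀ x ∈ H.val, ∀ z ∈ H.val, dist x z < δ → x = z := by
    obtain ⟨δ, hδ, h⟩ := H.val.finite_toSet.relatively_discrete
    obtain ⟨r, hr, hr'⟩ := ENNReal.lt_iff_exists_nnreal_btwn.1 hδ
    refine ⟨r, by exact_mod_cast hr, fun x hx z hz hxz => ?_⟩
    by_contra hne
    have h1 := h x hx z hz hne
    have h2 : edist x z < r := by
      rw [edist_nndist]
      exact_mod_cast hxz
    exact absurd (hr'.trans_le h1) (not_lt.2 h2.le)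
  obtain ⟨δ, hδ, hsep⟩ := hsep
  obtain ⟨n, hn⟩ := exists_nat_one_div_lt hδ
  obtain ⟨G, hG, hHG⟩ := mem_iUnion₂.1 (mem_iInter.1 hH n)
  refine mem_iUnion.2 ⟨n, ?_⟩
  have : H = G := by
    refine PR.ext' (Finset.Subset.antisymm ?_ hHG.1)
    intro x hx
    obtain ⟨z, hz, hxz⟩ := Metric.mem_thickening_iff.1 (hHG.2 hx)
    rw [hsep x hx z (hHG.1 hz) (hxz.trans hn)]
    exact hz
  rw [this]
  exact hG

theorem pr_not_weaklyAlster : ¬ WeaklyAlster PR := by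
  intro h
  obtain ⟨𝒱, h1, h2, h3⟩ := h {A | IsGδ A ∧ A.Countable} (fun A hA => hA.1)
    (fun hA => not_dense_of_countable hA.2 dense_univ)
    (fun C hC => by
      obtain ⟨A, hA1, hA2, hA3⟩ := compact_subset_countable_Gdelta hC
      exact ⟨A, ⟨hA1, hA2⟩, hA3⟩)
  exact not_dense_of_countable (h2.sUnion fun A hA => (h1 hA).2) h3

/-- There is a first countable, zero-dimensional Tychonoff space that is productively weakly
Lindelof and not weakly Alster. -/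
theorem result :
    ∃ (X : Type) (_ : TopologicalSpace X), T35Space X ∧ FirstCountableTopology X ∧
      TopologicalSpace.IsTopologicalBasis {s : Set X | IsClopen s} ∧
      ProductivelyWeaklyLindelof.{0, v} X ∧ ¬ WeaklyAlster X :=
  ⟨PR, prTop, pr_t35, pr_firstCountable, basis_clopens, pr_productive, pr_not_weaklyAlster⟩

end Pool.Agent.Results.MP_b47357_gt.Counterexample
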