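import Mathlib
import Pool.Agent.Lib.MP_b47357_gt.Dense

/-!
Dense subspaces of products of spaces with a countable pi-base are productively weakly Lindelof.
-/

set_option autoImplicit false

open Pool.Agent.Lib.MP_b47357_gt

universe u v w

namespace Pool.Agent.Results.MP_b47357_gt.DenseProducts

/-- Every dense subspace of an arbitrary product of spaces with a countable pi-base is
productively weakly Lindelof. -/
theorem result (I : Type u) (X : I → Type w) [∀ i, TopologicalSpace (X i)]
    (hX : ∀ i, CountablePiBase (X i)) (Z : Set (∀ i, X i)) (hZ : Dense Z) :
    ProductivelyWeaklyLindelof.{max u w, v} Z :=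
  dense_productive hX hZ

end Pool.Agent.Results.MP_b47357_gt.DenseProducts
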