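import Mathlib
import Pool.Agent.Lib.MP_b47357_gt.Dense

/-!
The function spaces `C_p(X)`: for a Tychonoff space `X` the space `C_p(X)` is always productively
weakly Lindelof, and it is weakly Alster exactly when for every countable set `A` countably many
continuous functions separate the points of the closure of `A`.
-/

set_option autoImplicit false

open Set Filter Topology Pool.Agent.Lib.MP_b47357_gt

universe u v

namespace Pool.Agent.Results.MP_b47357_gt.FunctionSpaces

/-- `C_p(X)`: the continuous real functions on `X` with the topology of pointwise convergence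
(the subspace topology of the product `X → ℝ`). -/
abbrev Cp (X : Type u) [TopologicalSpace X] : Type u := {f : X → ℝ // Continuous f}

/-- Countably many continuous real functions on `X` separate the points of `S`. -/
def CountablySeparated (X : Type u) [TopologicalSpace X] (S : Set X) : Prop :=
  ∃ F : Set (X → ℝ), F.Countable ∧ (∀ f ∈ F, Continuous f) ∧
    ∀ x ∈ S, ∀ y ∈ S, (∀ f ∈ F, f x = f y) → x = y

variable {X : Type u} [TopologicalSpace X]

/-- A continuous function can be changed at finitely many points outside a closed set. -/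
theorem modify [T35Space X] {K : Set X} (hK : IsClosed K) {f : X → ℝ} (hf : Continuous f)
    (g : X → ℝ) (s : Finset X) (hs : ∀ x ∈ s, x ∉ K) :
    ∃ h : X → ℝ, Continuous h ∧ EqOn h f K ∧ ∀ x ∈ s, h x = g x := by
  classical
  induction s using Finset.induction_on with
  | empty => exact ⟨f, hf, fun _ _ => rfl, by simp⟩
  | insert a s ha ih =>
    obtain ⟨h, hc, h1, h2⟩ := ih fun x hx => hs x (Finset.mem_insert_of_mem hx)
    obtain ⟨φ, hφ, hφa, hφK⟩ := CompletelyRegularSpace.completely_regular a (K ∪ (s : Set X))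
      (hK.union s.finite_toSet.isClosed)
      (fun h => h.elim (hs a (Finset.mem_insert_self a s)) (fun h => ha h))
    refine ⟨fun x => h x + (g a - h a) * (1 - (φ x : ℝ)),
      hc.add (continuous_const.mul (continuous_const.sub (continuous_subtype_val.comp hφ))),
      fun x hx => ?_, fun x hx => ?_⟩
    · have : φ x = 1 := hφK (Or.inl hx)
      simp [this, h1 hx]
    · rcases Finset.mem_insert.1 hx with rfl | hx
      · simp [hφa]
      · have : φ x = 1 := hφK (Or.inr hx)
        simp [this, h2 x hx]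

theorem dense_continuous [T35Space X] : Dense {f : X → ℝ | Continuous f} := by
  rw [dense_iff_inter_open]
  rintro O hO ⟨g, hg⟩
  obtain ⟨e, u, hu, hsub⟩ := isOpen_pi_iff.1 hO g hg
  obtain ⟨h, hc, -, h2⟩ := modify isClosed_empty (continuous_const (y := (0 : ℝ))) g e (by simp)
  exact ⟨h, hsub fun x hx => by rw [h2 x hx]; exact (hu x hx).2, hc⟩

theorem cp_productive [T35Space X] : ProductivelyWeaklyLindelof.{u, v} (Cp X) :=
  dense_productive (X := fun _ : X => ℝ) (Z := {f : X → ℝ | Continuous f})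
    (fun _ => countablePiBase_of_secondCountable ℝ) dense_continuous

theorem exists_basic {O : Set (Cp X)} (hO : IsOpen O) {g : Cp X} (hg : g ∈ O) :
    ∃ (e : Finset X) (u : X → Set ℝ), (∀ x ∈ e, IsOpen (u x) ∧ g.1 x ∈ u x) ∧
      ∀ h : Cp X, (∀ x ∈ e, h.1 x ∈ u x) → h ∈ O := by
  obtain ⟨O', hO', rfl⟩ := isOpen_induced_iff.1 hO
  obtain ⟨e, u, hu, hsub⟩ := isOpen_pi_iff.1 hO' g.1 hg
  exact ⟨e, u, hu, fun h hh => hsub fun x hx => hh x hx⟩

theorem exists_countable_support {U : Set (Cp X)} (hU : IsGδ U) {f : Cp X} (hf : f ∈ U) :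
    ∃ A : Set X, A.Countable ∧ ∀ h : Cp X, EqOn h.1 f.1 A → h ∈ U := by
  obtain ⟨T, hT, hc, rfl⟩ := hU
  choose e u hu hsub using fun (t : Set (Cp X)) (ht : t ∈ T) => exists_basic (hT t ht) (hf t ht)
  refine ⟨⋃ t, ⋃ ht : t ∈ T, (e t ht : Set X),
    hc.biUnion fun t ht => (e t ht).finite_toSet.countable, fun h hh t ht => ?_⟩
  refine hsub t ht h fun x hx => ?_
  rw [hh (mem_iUnion₂.2 ⟨t, ht, hx⟩)]
  exact (hu t ht x hx).2

/-- From a countable separating family to a countable family that is pointwise dense on `S`. -/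
theorem approx {S : Set X} (hS : CountablySeparated X S) :
    ∃ D : Set (Cp X), D.Countable ∧ ∀ (T : Finset X) (u : X → Set ℝ), (∀ x ∈ T, x ∈ S) →
      (∀ x ∈ T, IsOpen (u x) ∧ (u x).Nonempty) → ∃ d ∈ D, ∀ x ∈ T, d.1 x ∈ u x := by
  classical
  obtain ⟨F, hFc, hF, hsep⟩ := hS
  have : Countable F := hFc.to_subtype
  let G : X → (F → EReal) := fun x f => (f.1 x : EReal)
  have hG : Continuous G := continuous_pi fun f => continuous_coe_real_ereal.comp (hF f.1 f.2)
  have hinj : ∀ x ∈ S, ∀ y ∈ S, G x = G y → x = y := fun x hx y hy h =>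
    hsep x hx y hy fun f hf => by
      have := congrFun h ⟨f, hf⟩
      exact EReal.coe_injective this
  obtain ⟨D₀, hD₀c, hD₀⟩ := TopologicalSpace.exists_countable_dense C(F → EReal, ℝ)
  refine ⟨(fun φ : C(F → EReal, ℝ) => (⟨fun x => φ (G x), φ.continuous.comp hG⟩ : Cp X)) '' D₀,
    hD₀c.image _, fun T u hT hu => ?_⟩
  let g : (F → EReal) → ℝ := fun q =>
    if h : ∃ x ∈ T, G x = q then (hu h.choose h.choose_spec.1).2.some else 0
  have hg : ∀ x ∈ T, g (G x) ∈ u x := by
    intro x hx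
    have h : ∃ x' ∈ T, G x' = G x := ⟨x, hx, rfl⟩
    have h1 : h.choose = x := hinj _ (hT _ h.choose_spec.1) x (hT x hx) h.choose_spec.2
    have h2 := (hu h.choose h.choose_spec.1).2.some_mem
    simp only [g, dif_pos h]
    rw [← congrArg u h1]
    exact h2
  obtain ⟨φ₀, hφc, -, hφ⟩ := modify isClosed_empty (continuous_const (y := (0 : ℝ))) g
    (T.image G) (by simp)
  obtain ⟨φ, h1, h2⟩ := hD₀.inter_open_nonempty
    (⋂ x ∈ T, {φ : C(F → EReal, ℝ) | φ (G x) ∈ u x})
    (isOpen_biInter_finset fun x hx => (hu x hx).1.preimage (continuous_eval_const (G x)))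
    ⟨⟨φ₀, hφc⟩, mem_iInter₂.2 fun x hx => by
      change φ₀ (G x) ∈ u x
      rw [hφ _ (Finset.mem_image_of_mem G hx)]
      exact hg x hx⟩
  exact ⟨_, ⟨φ, h2, rfl⟩, fun x hx => mem_iInter₂.1 h1 x hx⟩

theorem weaklyAlster_of_separated [T35Space X]
    (hX : ∀ A : Set X, A.Countable → CountablySeparated X (closure A)) : WeaklyAlster (Cp X) := by
  classical
  intro 𝒰 hG _ hK
  choose U hU hfU using fun f : Cp X => hK {f} isCompact_singleton
  choose A hAc hA using fun f : Cp X =>
    exists_countable_support (hG _ (hU f)) (singleton_subset_iff.1 (hfU f))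
  choose! D hDc hD using fun (B : Set X) (hB : B.Countable) => approx (hX B hB)
  let a : ℕ → Set X := fun n => Nat.rec ∅ (fun _ B => B ∪ ⋃ f ∈ D B, A f) n
  have hsucc : ∀ n, a (n + 1) = a n ∪ ⋃ f ∈ D (a n), A f := fun n => rfl
  have hac : ∀ n, (a n).Countable := by
    intro n
    induction n with
    | zero => exact countable_empty
    | succ n ih => rw [hsucc]; exact ih.union ((hDc _ ih).biUnion fun f _ => hAc f)
  have hmono : Monotone a := monotone_nat_of_le_succ fun n => by
    rw [hsucc]; exact subset_union_left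
  refine ⟨U '' ⋃ n, D (a n), ?_, (countable_iUnion fun n => hDc _ (hac n)).image _, ?_⟩
  · rintro _ ⟨f, -, rfl⟩
    exact hU f
  rw [dense_iff_inter_open]
  rintro O hO ⟨g, hg⟩
  obtain ⟨e, u, hu, hsub⟩ := exists_basic hO hg
  let T := e.filter fun x => ∃ n, x ∈ closure (a n)
  obtain ⟨n, hn⟩ : ∃ n, ∀ x ∈ T, x ∈ closure (a n) := by
    have h : ∀ x, ∃ n, x ∈ T → x ∈ closure (a n) := fun x => by
      by_cases hx : x ∈ T
      · obtain ⟨n, hn⟩ := (Finset.mem_filter.1 hx).2
        exact ⟨n, fun _ => hn⟩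
      · exact ⟨0, fun h => (hx h).elim⟩
    choose m hm using h
    exact ⟨T.sup m, fun x hx => closure_mono (hmono (Finset.le_sup hx)) (hm x hx)⟩
  obtain ⟨d, hdD, hd⟩ := hD (a n) (hac n) T u hn fun x hx =>
    ⟨(hu x (Finset.mem_filter.1 hx).1).1, _, (hu x (Finset.mem_filter.1 hx).1).2⟩
  obtain ⟨h, hc, h1, h2⟩ := modify (K := closure (a (n + 1))) isClosed_closure d.2 g.1 (e \ T)
    fun x hx hxK => (Finset.mem_sdiff.1 hx).2
      (Finset.mem_filter.2 ⟨(Finset.mem_sdiff.1 hx).1, n + 1, hxK⟩)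
  refine ⟨⟨h, hc⟩, hsub _ fun x hx => ?_, U d, ⟨d, mem_iUnion.2 ⟨n, hdD⟩, rfl⟩,
    hA d _ fun x hx => h1 (subset_closure ?_)⟩
  · by_cases hxT : x ∈ T
    · change h x ∈ u x
      rw [h1 (closure_mono (hmono (Nat.le_succ n)) (hn x hxT))]
      exact hd x hxT
    · change h x ∈ u x
      rw [h2 x (Finset.mem_sdiff.2 ⟨hx, hxT⟩)]
      exact (hu x hx).2
  · rw [hsucc]
    exact Or.inr (mem_biUnion hdD hx)

theorem separated_of_weaklyAlster [T35Space X] (hW : WeaklyAlster (Cp X)) (A : Set X)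
    (hA : A.Countable) : CountablySeparated X (closure A) := by
  classical
  rcases A.eq_empty_or_nonempty with rfl | ⟨a₀, ha₀⟩
  · exact ⟨∅, countable_empty, by simp, by simp⟩
  have : Countable A := hA.to_subtype
  have : Nonempty (Cp X) := ⟨⟨fun _ => 0, continuous_const⟩⟩
  let r : Cp X → (A → ℝ) := fun f x => f.1 x.1
  have hr : Continuous r := continuous_pi fun x => (continuous_apply x.1).comp continuous_subtype_val
  have hev : ∀ x : X, Continuous fun f : Cp X => f.1 x := fun x =>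
    (continuous_apply x).comp continuous_subtype_val
  have hagree : ∀ f g : Cp X, r f = r g → EqOn f.1 g.1 (closure A) := fun f g h =>
    Set.EqOn.closure (fun x hx => congrFun h ⟨x, hx⟩) f.2 g.2
  obtain ⟨𝒱, h𝒱, hc, hd⟩ := hW {U | ∃ C : Set (Cp X), IsCompact C ∧ U = r ⁻¹' (r '' C)}
    (by
      rintro _ ⟨C, hC, rfl⟩
      exact (hC.image hr).isClosed.isGδ.preimage hr)
    (by
      rintro ⟨C, hC, hU⟩
      obtain ⟨M, hM⟩ := (hC.image (hev a₀)).bddAbove
      have h1 : (⟨fun _ => M + 1, continuous_const⟩ : Cp X) ∈ r ⁻¹' (r '' C) := hU ▸ mem_univ _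
      obtain ⟨f, hf, h2⟩ := h1
      have h3 : f.1 a₀ = M + 1 := congrFun h2 ⟨a₀, ha₀⟩
      have h4 : f.1 a₀ ≤ M := hM ⟨f, hf, rfl⟩
      linarith)
    (fun C hC => ⟨_, ⟨C, hC, rfl⟩, subset_preimage_image r C⟩)
  have hsmall : ∀ C : Set (Cp X), IsCompact C → ∃ D : Set (Cp X), D.Countable ∧
      ∀ x ∈ closure A, ∀ y ∈ closure A, ∀ f ∈ C, f.1 x ≠ f.1 y → ∃ d ∈ D, d.1 x ≠ d.1 y := by
    intro C hC
    obtain ⟨t, htC, htc, hcl⟩ :=
      (TopologicalSpace.IsSeparable.of_separableSpace (r '' C)).exists_countable_dense_subset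
    choose! p hp1 hp2 using fun q (hq : q ∈ t) => htC hq
    refine ⟨p '' t, htc.image _, fun x hx y hy f hf hne => ?_⟩
    have hcomp : IsCompact (C ∩ {h | h.1 x = h.1 y}) :=
      hC.inter_right (isClosed_eq (hev x) (hev y))
    have hnot : r f ∈ (r '' (C ∩ {h | h.1 x = h.1 y}))ᶜ := by
      rintro ⟨h, ⟨-, h1⟩, h2⟩
      exact hne (by rw [← hagree h f h2 hx, ← hagree h f h2 hy]; exact h1)
    obtain ⟨q, hq1, hq2⟩ := mem_closure_iff.1 (hcl ⟨f, hf, rfl⟩) _
      (hcomp.image hr).isClosed.isOpen_compl hnot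
    exact ⟨p q, ⟨q, hq2, rfl⟩, fun h => hq1 ⟨p q, ⟨hp1 q hq2, h⟩, hp2 q hq2⟩⟩
  have hex : ∀ V ∈ 𝒱, ∃ D : Set (Cp X), D.Countable ∧
      ∀ x ∈ closure A, ∀ y ∈ closure A, ∀ f ∈ V, f.1 x ≠ f.1 y → ∃ d ∈ D, d.1 x ≠ d.1 y := by
    intro V hV
    obtain ⟨C, hC, rfl⟩ := h𝒱 hV
    obtain ⟨D, h1, h2⟩ := hsmall C hC
    refine ⟨D, h1, fun x hx y hy f ⟨g, hg, hgf⟩ hne => h2 x hx y hy g hg ?_⟩
    rw [hagree g f hgf hx, hagree g f hgf hy]
    exact hne
  choose! D hDc hD using hex
  refine ⟨Subtype.val '' ⋃ V ∈ 𝒱, D V, (hc.biUnion hDc).image _, ?_, fun x hx y hy h => ?_⟩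
  · rintro _ ⟨f, -, rfl⟩
    exact f.2
  by_contra hxy
  obtain ⟨f₀, hf₀, hne⟩ := separatesPoints_continuous_of_t35Space hxy
  obtain ⟨f, hf1, V, hV, hf2⟩ := hd.inter_open_nonempty {f : Cp X | f.1 x ≠ f.1 y}
    (isOpen_ne_fun (hev x) (hev y)) ⟨⟨f₀, hf₀⟩, hne⟩
  obtain ⟨d, hd1, hd2⟩ := hD V hV x hx y hy f hf2 hf1
  exact hd2 (h d.1 ⟨d, mem_biUnion hV hd1, rfl⟩)

/-- For a Tychonoff space `X`, the space `C_p(X)` is productively weakly Lindelof and not weakly
Alster if and only if the closure of some countable subset of `X` is not separated by countably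
many continuous functions. -/
theorem result (X : Type u) [TopologicalSpace X] [T35Space X] :
    (ProductivelyWeaklyLindelof.{u, v} (Cp X) ∧ ¬ WeaklyAlster (Cp X)) ↔
      ∃ A : Set X, A.Countable ∧ ¬ CountablySeparated X (closure A) := by
  constructor
  · rintro ⟨-, h⟩
    by_contra hcon
    push Not at hcon
    exact h (weaklyAlster_of_separated hcon)
  · rintro ⟨A, hA, h⟩
    exact ⟨cp_productive, fun hW => h (separated_of_weaklyAlster hW A hA)⟩

/-- The right-hand side of `result` holds for the Stone-Cech compactification of the integers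
(the space of ultrafilters on the natural numbers). -/
theorem betaN : ∃ A : Set (Ultrafilter ℕ), A.Countable ∧
    ¬ CountablySeparated (Ultrafilter ℕ) (closure A) := by
  refine ⟨range pure, countable_range _, ?_⟩
  rintro ⟨F, hFc, hF, hsep⟩
  have : Countable F := hFc.to_subtype
  rw [denseRange_pure.closure_range] at hsep
  let G : Ultrafilter ℕ → (F → ℝ) := fun x f => f.1 x
  have hG : Continuous G := continuous_pi fun f => hF f.1 f.2
  have hinj : Function.Injective G := fun x y h =>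
    hsep x trivial y trivial fun f hf => congrFun h ⟨f, hf⟩
  have : FirstCountableTopology (Ultrafilter ℕ) :=
    (hG.isClosedEmbedding hinj).isEmbedding.firstCountableTopology
  obtain ⟨a, φ, hφ, hlim⟩ := CompactSpace.tendsto_subseq (pure : ℕ → Ultrafilter ℕ)
  have key : ∀ s ∈ a, ∃ N, ∀ k ≥ N, φ k ∈ s := fun s hs =>
    eventually_atTop.1 (hlim.eventually ((ultrafilter_isOpen_basic s).mem_nhds hs))
  rcases a.mem_or_compl_mem (φ '' {k | Even k}) with h | h
  · obtain ⟨N, hN⟩ := key _ h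
    obtain ⟨k, hk, hk'⟩ := hN (2 * N + 1) (by omega)
    rw [hφ.injective hk'] at hk
    exact Nat.not_even_iff_odd.2 (odd_two_mul_add_one N) hk
  · obtain ⟨N, hN⟩ := key _ h
    exact hN (2 * N) (by omega) ⟨2 * N, even_two_mul N, rfl⟩

/-- The topological vector space `C_p` of the Stone-Cech compactification of the integers is
productively weakly Lindelof and not weakly Alster. -/
theorem cp_betaN : ProductivelyWeaklyLindelof.{0, v} (Cp (Ultrafilter ℕ)) ∧
    ¬ WeaklyAlster (Cp (Ultrafilter ℕ)) :=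
  (result (Ultrafilter ℕ)).2 betaN

end Pool.Agent.Results.MP_b47357_gt.FunctionSpaces
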